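import Pool.Agent.NH98.IL.Stm

/-! IL-3: normal subgroups congruent to `1` modulo an ideal with local units. -/

set_option autoImplicit false

namespace Pool.Agent.NH98.IL

open Pool.Agent.Y110.FJ

theorem t_a (h : S_KEY) : S_A := by
  intro C hC S _ I _ hLU hCor G _ n ρ N _ hinj hent hQ
  refine Pool.Agent.R630.FJ.crit C hC G N hQ fun g E hE hEN => ?_
  -- the entries of `ρ x - 1`
  set ent : G → Set S := fun x => Set.range (fun ij : Fin n × Fin n =>
    (((ρ x : GLr n S) : Matrix (Fin n) (Fin n) S) - 1) ij.1 ij.2) with hentd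
  have hentfin : ∀ x, (ent x).Finite := fun x => Set.finite_range _
  have hentI : ∀ x ∈ N, ent x ⊆ (I : Set S) := by
    rintro x hx _ ⟨ij, rfl⟩
    exact hent x hx ij.1 ij.2
  obtain ⟨e, heI, hee, heZ⟩ := hLU (⋃ x ∈ E, ent x) (hE.biUnion fun x _ => hentfin x)
    (Set.iUnion₂_subset fun x hx => hentI x (hEN hx))
  have hgN : ∀ x ∈ E, g * x * g⁻¹ ∈ N := fun x hx =>
    Subgroup.Normal.conj_mem inferInstance x (hEN hx) g
  obtain ⟨e', he'I, hee', heZ'⟩ := hLU (({e} ∪ Set.range (fun ij : Fin n × Fin n =>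
      ((ρ g : GLr n S) : Matrix (Fin n) (Fin n) S) ij.1 ij.2 * e)) ∪
    Set.range (fun ij : Fin n × Fin n =>
      e * (((ρ g)⁻¹ : GLr n S) : Matrix (Fin n) (Fin n) S) ij.1 ij.2) ∪
    (⋃ x ∈ E, ent x) ∪ ⋃ x ∈ E, ent (g * x * g⁻¹))
    (((((Set.finite_singleton e).union (Set.finite_range _)).union (Set.finite_range _)).union
      (hE.biUnion fun x _ => hentfin x)).union (hE.biUnion fun x _ => hentfin _)) (by
      rintro z ((((hz | hz) | hz) | hz) | hz)
      · rw [Set.mem_singleton_iff] at hz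
        rw [hz]
        exact heI
      · obtain ⟨ij, rfl⟩ := hz
        exact I.mul_mem_left _ heI
      · obtain ⟨ij, rfl⟩ := hz
        exact I.mul_mem_right _ heI
      · exact Set.iUnion₂_subset (fun x hx => hentI x (hEN hx)) hz
      · exact Set.iUnion₂_subset (fun x hx => hentI _ (hgN x hx)) hz)
  obtain ⟨H, Ψ, hH, hΨ, hkey⟩ := h S n e' hee'
  have hcgE : ∀ x ∈ E, cg e (ρ x) := by
    intro x hx i j
    exact heZ _ (Set.mem_biUnion hx ⟨(i, j), rfl⟩)
  have hEH : ∀ x ∈ E, ρ x ∈ H := by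
    intro x hx
    rw [hH]
    intro i j
    exact heZ' _ (Or.inl (Or.inr (Set.mem_biUnion hx ⟨(i, j), rfl⟩)))
  have hgEH : ∀ x ∈ E, ρ (g * x * g⁻¹) ∈ H := by
    intro x hx
    rw [hH]
    intro i j
    exact heZ' _ (Or.inr (Set.mem_biUnion hx ⟨(i, j), rfl⟩))
  have hLH : Subgroup.closure (E ∪ (fun x => g * x * g⁻¹) '' E) ≤ H.comap ρ := by
    rw [Subgroup.closure_le]
    rintro y (hy | ⟨x, hx, rfl⟩)
    · exact hEH y hy
    · exact hgEH x hx
  have hLN : Subgroup.closure (E ∪ (fun x => g * x * g⁻¹) '' E) ≤ N := by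
    rw [Subgroup.closure_le]
    rintro y (hy | ⟨x, hx, rfl⟩)
    · exact hEN hy
    · exact hgN x hx
  let f0 : ↥(Subgroup.closure (E ∪ (fun x => g * x * g⁻¹) '' E)) →* H :=
    (ρ.comp (Subgroup.subtype _)).codRestrict H (fun x => hLH x.2)
  obtain ⟨p, hp⟩ := hkey (ρ g) e hee
    (heZ' e (Or.inl (Or.inl (Or.inl (Or.inl rfl))))).1
    (heZ' e (Or.inl (Or.inl (Or.inl (Or.inl rfl))))).2
    (fun i j => (heZ' _ (Or.inl (Or.inl (Or.inl (Or.inr ⟨(i, j), rfl⟩))))).1)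
    (fun i j => (heZ' _ (Or.inl (Or.inl (Or.inr ⟨(i, j), rfl⟩)))).2)
  refine ⟨GLr (n + n) (IsIdempotentElem.Corner (show IsIdempotentElem e' from hee')),
    inferInstance, Ψ.comp f0, p, hCor e' hee' he'I (n + n), ?_, ?_⟩
  · refine hΨ.comp ?_
    intro x y hxy
    have h1 : ρ (x : G) = ρ (y : G) := congrArg Subtype.val hxy
    have h2 : (x : G) * (y : G)⁻¹ = 1 := by
      apply hinj _ (N.mul_mem (hLN x.2) (N.inv_mem (hLN y.2)))
      rw [map_mul, map_inv, h1, mul_inv_cancel]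
    exact Subtype.ext (mul_inv_eq_one.1 h2)
  · intro x y hx hy
    refine hp (f0 x) (f0 y) (hcgE x hx) ?_
    show ρ (y : G) = ρ g * ρ (x : G) * (ρ g)⁻¹
    rw [hy, map_mul, map_mul, map_inv]

end Pool.Agent.NH98.IL
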