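import Pool.Agent.NH98.IL.Stm

/-!
# Project IL, IL-4: kernels with local units
-/

set_option autoImplicit false

namespace Pool.Agent.NH98.IL

theorem t_b (h : S_A) : S_B := by
  intro C hC S S' _ _ φ hL hcor hS' n
  let f : GLr n S →* GLr n S' := Units.map (RingHom.mapMatrix φ : Matrix (Fin n) (Fin n) S →+* Matrix (Fin n) (Fin n) S').toMonoidHom
  have hf : ∀ x : GLr n S, x ∈ f.ker → ∀ i j, φ (((x : Matrix (Fin n) (Fin n) S) - 1) i j) = 0 := by
    intro x hx i j
    have h1 : f x = 1 := hx
    have h2 : ((f x : GLr n S') : Matrix (Fin n) (Fin n) S') = 1 := by rw [h1]; rfl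
    have h3 : (x : Matrix (Fin n) (Fin n) S).map φ = 1 := h2
    have h4 : φ ((x : Matrix (Fin n) (Fin n) S) i j) = (1 : Matrix (Fin n) (Fin n) S') i j := by
      rw [← h3]; rfl
    rw [Matrix.sub_apply, map_sub, h4, sub_eq_zero]
    rw [Matrix.one_apply, Matrix.one_apply]
    split_ifs
    · exact (map_one φ).symm
    · exact (map_zero φ).symm
  have hLI : LocUnits ((RingHom.ker φ : Ideal S) : Set S) := by
    have e1 : ((RingHom.ker φ : Ideal S) : Set S) = {x | φ x = 0} := by
      ext x
      exact RingHom.mem_ker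
    rw [e1]
    exact hL
  refine h C hC S (RingHom.ker φ) hLI (fun e he hφ => hcor e he (RingHom.mem_ker.1 hφ)) (GLr n S) n
    (MonoidHom.id _) f.ker (fun x _ hx => hx) (fun x hx i j => RingHom.mem_ker.2 (hf x hx i j)) ?_
  exact hC.base.of_injective _ _ (QuotientGroup.kerLift f) (QuotientGroup.kerLift_injective f) (hS' n)

theorem t_d (hb : S_B) (hti : S_TI) : S_D := by
  intro C hC S S' _ _ φ e he hker hL hcor hS'
  exact hb C hC S S' φ hL (fun f hf hφf => hti C hC S e f he hf ((hker f).1 hφf) hcor) hS'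

end Pool.Agent.NH98.IL
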