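import Pool.Agent.NH98.IL.Stm

/-!
# Project IL, IL-2 (`S_KEY`): conjugation on a corner is inner in `GL_{2n}` of a larger corner (helper58)
-/

set_option autoImplicit false

namespace Pool.Agent.NH98.IL.KeyAux

open Matrix Pool.Agent.NH98.IL

section alg

variable {R : Type} [Ring R] {a b ε : R}

theorem al1 (hba : b * a = ε) (ha : a * ε = a) : a * b + (1 - a * b) * (1 - a * b) = 1 := by
  have h1 : a * b * (a * b) = a * b := by
    calc a * b * (a * b) = a * (b * a) * b := by noncomm_ring
      _ = a * b := by rw [hba, ha]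
  calc a * b + (1 - a * b) * (1 - a * b) = 1 - a * b + a * b * (a * b) := by noncomm_ring
    _ = 1 := by rw [h1]; noncomm_ring

theorem al2 (hba : b * a = ε) (ha : a * ε = a) : a * (1 - ε) + (1 - a * b) * a = 0 := by
  have h1 : a * b * a = a := by rw [mul_assoc, hba, ha]
  rw [mul_sub, sub_mul, h1, ha]
  noncomm_ring

theorem al3 (hba : b * a = ε) (hb : ε * b = b) : (1 - ε) * b + b * (1 - a * b) = 0 := by
  have h1 : b * (a * b) = b := by rw [← mul_assoc, hba, hb]
  rw [sub_mul, mul_sub, h1, hb]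
  noncomm_ring

theorem al4 (hba : b * a = ε) (he : ε * ε = ε) : (1 - ε) * (1 - ε) + b * a = 1 := by
  calc (1 - ε) * (1 - ε) + b * a = 1 - ε - ε + ε * ε + b * a := by noncomm_ring
    _ = 1 := by rw [hba, he]; noncomm_ring

end alg

section pq

variable {R : Type} [Ring R] {n : ℕ}

/-- the unit which conjugates -/
def pu (a b ε : Matrix (Fin n) (Fin n) R) (hba : b * a = ε) (he : ε * ε = ε) (ha : a * ε = a)
    (hb : ε * b = b) : (Matrix (Fin n ⊕ Fin n) (Fin n ⊕ Fin n) R)ˣ where
  val := fromBlocks a (1 - a * b) (1 - ε) b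
  inv := fromBlocks b (1 - ε) (1 - a * b) a
  val_inv := by
    rw [fromBlocks_multiply, al1 hba ha, al2 hba ha, al3 hba hb, al4 hba he, fromBlocks_one]
  inv_val := by
    have h2 : b * (1 - a * b) + (1 - ε) * b = 0 := by rw [add_comm]; exact al3 hba hb
    have h3 : (1 - a * b) * a + a * (1 - ε) = 0 := by rw [add_comm]; exact al2 hba ha
    have h4 : b * a + (1 - ε) * (1 - ε) = 1 := by rw [add_comm]; exact al4 hba he
    have h5 : (1 - a * b) * (1 - a * b) + a * b = 1 := by rw [add_comm]; exact al1 hba ha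
    rw [fromBlocks_multiply, h2, h3, h4, h5, fromBlocks_one]

theorem pu_conj (a b ε z : Matrix (Fin n) (Fin n) R) (hba : b * a = ε)
    (hb : ε * b = b) (hz : ε * z = z) (hz' : z * ε = z) :
    fromBlocks (1 + a * (z * b)) 0 0 (1 : Matrix (Fin n) (Fin n) R) *
        fromBlocks a (1 - a * b) (1 - ε) b =
      fromBlocks a (1 - a * b) (1 - ε) b * fromBlocks (1 + z) 0 0 1 := by
  rw [fromBlocks_multiply, fromBlocks_multiply]
  have h1 : (1 + a * (z * b)) * a = a * (1 + z) := by
    calc (1 + a * (z * b)) * a = a + a * (z * (b * a)) := by noncomm_ring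
      _ = a * (1 + z) := by rw [hba, hz']; noncomm_ring
  have h2 : (1 + a * (z * b)) * (1 - a * b) = 1 - a * b := by
    calc (1 + a * (z * b)) * (1 - a * b) = 1 - a * b + a * (z * b) - a * (z * ((b * a) * b)) := by
          noncomm_ring
      _ = 1 - a * b := by rw [hba, hb]; noncomm_ring
  have h3 : (1 - ε) * (1 + z) = 1 - ε := by
    calc (1 - ε) * (1 + z) = 1 - ε + z - ε * z := by noncomm_ring
      _ = 1 - ε := by rw [hz]; noncomm_ring
  rw [h1, h2, h3]
  simp only [zero_mul, mul_zero, one_mul, mul_one, add_zero, zero_add]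

end pq

section corner

variable {S : Type} [Ring S] {e' : S}

/-- the projection to the corner -/
def pr (he' : IsIdempotentElem e') : S →+ he'.Corner where
  toFun s := ⟨e' * s * e', s, rfl⟩
  map_zero' := Subtype.ext (by
    show e' * 0 * e' = (0 : S)
    rw [mul_zero, zero_mul])
  map_add' s t := Subtype.ext (by
    show e' * (s + t) * e' = e' * s * e' + e' * t * e'
    rw [mul_add, add_mul])

theorem pr_val (he' : IsIdempotentElem e') (s : S) : (pr he' s).1 = e' * s * e' := rfl

theorem pr_mul (he' : IsIdempotentElem e') {s : S} (t : S) (hs : s * e' = s) :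
    pr he' (s * t) = pr he' s * pr he' t := Subtype.ext (by
  show e' * (s * t) * e' = (e' * s * e') * (e' * t * e')
  calc e' * (s * t) * e' = e' * ((s * e') * t) * e' := by rw [hs]
    _ = e' * (s * (e' * e') * t) * e' := by rw [he'.eq]
    _ = (e' * s * e') * (e' * t * e') := by noncomm_ring)

theorem pr_one (he' : IsIdempotentElem e') : pr he' (1 : S) = 1 := Subtype.ext (by
  show e' * 1 * e' = e'
  rw [mul_one, he'.eq])

/-- the projection of matrices -/
def P (he' : IsIdempotentElem e') {n : ℕ} (x : Matrix (Fin n) (Fin n) S) :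
    Matrix (Fin n) (Fin n) he'.Corner := x.map (pr he')

variable {n : ℕ} (he' : IsIdempotentElem e')

theorem P_add (x y : Matrix (Fin n) (Fin n) S) : P he' (x + y) = P he' x + P he' y := by
  ext1 i j
  show pr he' (x i j + y i j) = pr he' (x i j) + pr he' (y i j)
  exact map_add _ _ _

theorem P_zero : P he' (0 : Matrix (Fin n) (Fin n) S) = 0 := by
  ext1 i j
  show pr he' 0 = 0
  exact map_zero _

theorem P_mul {x : Matrix (Fin n) (Fin n) S} (y : Matrix (Fin n) (Fin n) S)
    (hx : ∀ i j, x i j * e' = x i j) : P he' (x * y) = P he' x * P he' y := by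
  ext1 i j
  show pr he' ((x * y) i j) = (P he' x * P he' y) i j
  rw [mul_apply, mul_apply, map_sum]
  exact Finset.sum_congr rfl fun k _ => pr_mul he' _ (hx i k)

theorem P_inj {x y : Matrix (Fin n) (Fin n) S}
    (hx : ∀ i j, e' * x i j = x i j ∧ x i j * e' = x i j)
    (hy : ∀ i j, e' * y i j = y i j ∧ y i j * e' = y i j) (h : P he' x = P he' y) : x = y := by
  ext i j
  have h1 : (P he' x i j).1 = (P he' y i j).1 := by rw [h]
  have h2 : e' * x i j * e' = e' * y i j * e' := h1
  rw [(hx i j).1, (hx i j).2, (hy i j).1, (hy i j).2] at h2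
  exact h2

theorem left_mul {e : S} {x : Matrix (Fin n) (Fin n) S} (y : Matrix (Fin n) (Fin n) S)
    (hx : ∀ i j, e * x i j = x i j) (i j : Fin n) : e * (x * y) i j = (x * y) i j := by
  rw [mul_apply, Finset.mul_sum]
  exact Finset.sum_congr rfl fun k _ => by rw [← mul_assoc, hx]

theorem right_mul {e : S} (x : Matrix (Fin n) (Fin n) S) {y : Matrix (Fin n) (Fin n) S}
    (hy : ∀ i j, y i j * e = y i j) (i j : Fin n) : (x * y) i j * e = (x * y) i j := by
  rw [mul_apply, Finset.sum_mul]
  exact Finset.sum_congr rfl fun k _ => by rw [mul_assoc, hy]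

/-- the subgroup -/
def Hs (n : ℕ) (e : S) : Subgroup (GLr n S) where
  carrier := {u | cg e u}
  mul_mem' := by
    intro u v hu hv i j
    have h1 : ((u * v : GLr n S) : Matrix (Fin n) (Fin n) S) - 1 =
        ((u : Matrix (Fin n) (Fin n) S) - 1) * ((v : Matrix (Fin n) (Fin n) S) - 1) +
          ((u : Matrix (Fin n) (Fin n) S) - 1) + ((v : Matrix (Fin n) (Fin n) S) - 1) := by
      rw [Units.val_mul]
      noncomm_ring
    rw [h1, Matrix.add_apply, Matrix.add_apply]
    constructor
    · rw [mul_add, mul_add, left_mul _ (fun i j => (hu i j).1), (hu i j).1, (hv i j).1]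
    · rw [add_mul, add_mul, right_mul _ (fun i j => (hv i j).2), (hu i j).2, (hv i j).2]
  one_mem' := by
    intro i j
    rw [Units.val_one, sub_self]
    exact ⟨mul_zero _, zero_mul _⟩
  inv_mem' := by
    intro u hu i j
    constructor
    · have h1 : ((u⁻¹ : GLr n S) : Matrix (Fin n) (Fin n) S) - 1 =
          -(((u : Matrix (Fin n) (Fin n) S) - 1) * ((u⁻¹ : GLr n S) : Matrix (Fin n) (Fin n) S)) := by
        rw [sub_mul, Units.mul_inv, one_mul, neg_sub]
      rw [h1, Matrix.neg_apply, mul_neg, left_mul _ (fun i j => (hu i j).1)]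
    · have h1 : ((u⁻¹ : GLr n S) : Matrix (Fin n) (Fin n) S) - 1 =
          -(((u⁻¹ : GLr n S) : Matrix (Fin n) (Fin n) S) * ((u : Matrix (Fin n) (Fin n) S) - 1)) := by
        rw [mul_sub, Units.inv_mul, mul_one, neg_sub]
      rw [h1, Matrix.neg_apply, neg_mul, right_mul _ (fun i j => (hu i j).2)]

theorem mem_Hs {e : S} (u : GLr n S) : u ∈ Hs n e ↔ cg e u := Iff.rfl

/-- `u - 1` -/
def mo (u : GLr n S) : Matrix (Fin n) (Fin n) S := (u : Matrix (Fin n) (Fin n) S) - 1

/-- the homomorphism to block matrices -/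
def F0 : Hs n e' →* Matrix (Fin n ⊕ Fin n) (Fin n ⊕ Fin n) he'.Corner where
  toFun u := fromBlocks (1 + P he' (mo (u : GLr n S))) 0 0 1
  map_one' := by
    have h1 : mo (((1 : Hs n e') : GLr n S)) = 0 := by
      show ((1 : GLr n S) : Matrix (Fin n) (Fin n) S) - 1 = 0
      rw [Units.val_one, sub_self]
    rw [h1, P_zero, add_zero, fromBlocks_one]
  map_mul' := by
    intro u v
    have h1 : mo ((u * v : Hs n e') : GLr n S) = mo (u : GLr n S) * mo (v : GLr n S) +
        mo (u : GLr n S) + mo (v : GLr n S) := by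
      show ((((u : GLr n S) * (v : GLr n S) : GLr n S) : Matrix (Fin n) (Fin n) S) - 1) =
        (((u : GLr n S) : Matrix (Fin n) (Fin n) S) - 1) *
          (((v : GLr n S) : Matrix (Fin n) (Fin n) S) - 1) +
          (((u : GLr n S) : Matrix (Fin n) (Fin n) S) - 1) +
          (((v : GLr n S) : Matrix (Fin n) (Fin n) S) - 1)
      rw [Units.val_mul]
      noncomm_ring
    have h2 : P he' (mo (u : GLr n S) * mo (v : GLr n S)) =
        P he' (mo (u : GLr n S)) * P he' (mo (v : GLr n S)) :=
      P_mul he' _ (fun i j => ((mem_Hs _).1 u.2 i j).2)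
    rw [h1, P_add, P_add, h2, fromBlocks_multiply]
    congr 1
    · simp only [mul_zero, add_zero]
      noncomm_ring
    · simp only [mul_zero, zero_mul, add_zero]
    · simp only [mul_zero, zero_mul, add_zero]
    · simp only [mul_zero, mul_one, zero_add]

/-- the homomorphism of the statement -/
noncomputable def Psi : Hs n e' →* GLr (n + n) he'.Corner :=
  MonoidHom.toHomUnits (((Matrix.reindexRingEquiv he'.Corner
    (finSumFinEquiv (m := n) (n := n))) :
      Matrix (Fin n ⊕ Fin n) (Fin n ⊕ Fin n) he'.Corner →*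
        Matrix (Fin (n + n)) (Fin (n + n)) he'.Corner).comp (F0 (n := n) he'))

theorem Psi_val (u : Hs n e') : ((Psi he' u : GLr (n + n) he'.Corner) :
    Matrix (Fin (n + n)) (Fin (n + n)) he'.Corner) =
    Matrix.reindexRingEquiv he'.Corner (finSumFinEquiv (m := n) (n := n)) (F0 he' u) := rfl

theorem Psi_inj : Function.Injective (Psi (n := n) he') := by
  intro u v huv
  have h1 := congrArg (fun t : GLr (n + n) he'.Corner =>
    (t : Matrix (Fin (n + n)) (Fin (n + n)) he'.Corner)) huv
  simp only [Psi_val] at h1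
  have h2 := (Matrix.reindexRingEquiv he'.Corner (finSumFinEquiv (m := n) (n := n))).injective h1
  have h3 : fromBlocks (1 + P he' (mo (u : GLr n S))) 0 0 1 =
    fromBlocks (1 + P he' (mo (v : GLr n S))) 0 0
      (1 : Matrix (Fin n) (Fin n) he'.Corner) := h2
  have h4 := (fromBlocks_inj.1 h3).1
  have h5 := P_inj he' ((mem_Hs _).1 u.2) ((mem_Hs _).1 v.2) (add_left_cancel h4)
  have h6 : (((u : GLr n S) : Matrix (Fin n) (Fin n) S)) = ((v : GLr n S) : Matrix (Fin n) (Fin n) S) :=
    sub_left_injective h5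
  exact Subtype.ext (Units.ext h6)

end corner

end Pool.Agent.NH98.IL.KeyAux

namespace Pool.Agent.NH98.IL

open Matrix KeyAux

theorem t_key : S_KEY := by
  intro S _ n e' he'
  refine ⟨Hs n e', Psi he', fun u => Iff.rfl, Psi_inj he', ?_⟩
  intro g e hee h1 h2 hg hg'
  -- the diagonal matrix of `e`
  set E : Matrix (Fin n) (Fin n) S := Matrix.diagonal fun _ => e with hE
  have hgE : ∀ (x : Matrix (Fin n) (Fin n) S) i j, (x * E) i j = x i j * e := by
    intro x i j
    rw [hE, Matrix.mul_diagonal]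
  have hEg : ∀ (x : Matrix (Fin n) (Fin n) S) i j, (E * x) i j = e * x i j := by
    intro x i j
    rw [hE, Matrix.diagonal_mul]
  have hEE : E * E = E := by
    rw [hE, Matrix.diagonal_mul_diagonal, hee]
  have hEr : ∀ i j, E i j * e' = E i j := by
    intro i j
    rw [hE, Matrix.diagonal_apply]
    split_ifs
    · exact h2
    · exact zero_mul _
  have hgEr : ∀ i j, ((g : Matrix (Fin n) (Fin n) S) * E) i j * e' =
      ((g : Matrix (Fin n) (Fin n) S) * E) i j := by
    intro i j
    rw [hgE, mul_assoc, h2]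
  have hEgr : ∀ i j, (E * ((g⁻¹ : GLr n S) : Matrix (Fin n) (Fin n) S)) i j * e' =
      (E * ((g⁻¹ : GLr n S) : Matrix (Fin n) (Fin n) S)) i j := by
    intro i j
    rw [hEg]
    exact hg' i j
  set a := P he' ((g : Matrix (Fin n) (Fin n) S) * E) with ha_def
  set b := P he' (E * ((g⁻¹ : GLr n S) : Matrix (Fin n) (Fin n) S)) with hb_def
  set ε := P he' E with hε_def
  have hba : b * a = ε := by
    rw [hb_def, ha_def, ← P_mul he' _ hEgr, hε_def]
    congr 1
    calc E * ((g⁻¹ : GLr n S) : Matrix (Fin n) (Fin n) S) * ((g : Matrix (Fin n) (Fin n) S) * E)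
        = E * (((g⁻¹ : GLr n S) : Matrix (Fin n) (Fin n) S) * (g : Matrix (Fin n) (Fin n) S)) * E := by
          simp only [mul_assoc]
      _ = E := by rw [Units.inv_mul, mul_one, hEE]
  have hεε : ε * ε = ε := by
    rw [hε_def, ← P_mul he' _ hEr, hEE]
  have haε : a * ε = a := by
    rw [ha_def, hε_def, ← P_mul he' _ hgEr, mul_assoc, hEE]
  have hεb : ε * b = b := by
    rw [hb_def, hε_def, ← P_mul he' _ hEr, ← mul_assoc, hEE]
  refine ⟨Units.mapEquiv ((Matrix.reindexRingEquiv he'.Corner
    (finSumFinEquiv (m := n) (n := n))) : Matrix (Fin n ⊕ Fin n) (Fin n ⊕ Fin n) he'.Corner ≃*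
        Matrix (Fin (n + n)) (Fin (n + n)) he'.Corner) (pu a b ε hba hεε haε hεb), ?_⟩
  intro x y hx hy
  rw [eq_mul_inv_iff_mul_eq]
  apply Units.ext
  rw [Units.val_mul, Units.val_mul, Psi_val, Psi_val]
  show (Matrix.reindexRingEquiv he'.Corner (finSumFinEquiv (m := n) (n := n))) (F0 he' y) *
      (Matrix.reindexRingEquiv he'.Corner (finSumFinEquiv (m := n) (n := n)))
        (fromBlocks a (1 - a * b) (1 - ε) b) =
    (Matrix.reindexRingEquiv he'.Corner (finSumFinEquiv (m := n) (n := n)))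
        (fromBlocks a (1 - a * b) (1 - ε) b) *
      (Matrix.reindexRingEquiv he'.Corner (finSumFinEquiv (m := n) (n := n))) (F0 he' x)
  rw [← map_mul, ← map_mul]
  congr 1
  have hxE1 : E * mo (x : GLr n S) = mo (x : GLr n S) := by
    ext i j
    rw [hEg]
    exact (hx i j).1
  have hxE2 : mo (x : GLr n S) * E = mo (x : GLr n S) := by
    ext i j
    rw [hgE]
    exact (hx i j).2
  have hxr : ∀ i j, mo (x : GLr n S) i j * e' = mo (x : GLr n S) i j :=
    fun i j => ((mem_Hs _).1 x.2 i j).2
  have hz1 : ε * P he' (mo (x : GLr n S)) = P he' (mo (x : GLr n S)) := by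
    rw [hε_def, ← P_mul he' _ hEr, hxE1]
  have hz2 : P he' (mo (x : GLr n S)) * ε = P he' (mo (x : GLr n S)) := by
    rw [hε_def, ← P_mul he' _ hxr, hxE2]
  have hy1 : mo (y : GLr n S) = (g : Matrix (Fin n) (Fin n) S) * E *
      (mo (x : GLr n S) * (E * ((g⁻¹ : GLr n S) : Matrix (Fin n) (Fin n) S))) := by
    calc mo (y : GLr n S) = (g : Matrix (Fin n) (Fin n) S) *
        ((x : GLr n S) : Matrix (Fin n) (Fin n) S) *
          ((g⁻¹ : GLr n S) : Matrix (Fin n) (Fin n) S) - 1 := by
          rw [mo, hy, Units.val_mul, Units.val_mul]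
      _ = (g : Matrix (Fin n) (Fin n) S) * mo (x : GLr n S) *
          ((g⁻¹ : GLr n S) : Matrix (Fin n) (Fin n) S) := by
          rw [mo, mul_sub, mul_one, sub_mul, Units.mul_inv]
      _ = (g : Matrix (Fin n) (Fin n) S) * (E * mo (x : GLr n S) * E) *
          ((g⁻¹ : GLr n S) : Matrix (Fin n) (Fin n) S) := by
          rw [hxE1, hxE2]
      _ = _ := by simp only [mul_assoc]
  have hy2 : P he' (mo (y : GLr n S)) = a * (P he' (mo (x : GLr n S)) * b) := by
    rw [hy1, P_mul he' _ hgEr, P_mul he' _ hxr]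
  show fromBlocks (1 + P he' (mo (y : GLr n S))) 0 0 (1 : Matrix (Fin n) (Fin n) he'.Corner) *
      fromBlocks a (1 - a * b) (1 - ε) b =
    fromBlocks a (1 - a * b) (1 - ε) b * fromBlocks (1 + P he' (mo (x : GLr n S))) 0 0 1
  rw [hy2]
  exact pu_conj a b ε _ hba hεb hz1 hz2

end Pool.Agent.NH98.IL
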