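import Pool.Agent.NH98.IL.Stm

/-!
# IL-6: ideals of von Neumann regular rings have local units
-/

set_option autoImplicit false

namespace Pool.Agent.NH98.IL

namespace Lu45

variable {S S' : Type} [Ring S] [Ring S'] (φ : S →+* S')

theorem left_unit (hr : ∀ a : S, ∃ x, a * x * a = a) {E : Set S} (hE : E.Finite) :
    (∀ x ∈ E, φ x = 0) → ∃ f : S, φ f = 0 ∧ f * f = f ∧ ∀ x ∈ E, f * x = x := by
  induction E, hE using Set.Finite.induction_on with
  | empty => exact fun _ => ⟨0, map_zero φ, by simp, by simp⟩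
  | @insert a s _ _ ih =>
    intro hs
    obtain ⟨f, f0, ff, fx⟩ := ih fun x hx => hs x (Set.mem_insert_of_mem _ hx)
    obtain ⟨z, hz⟩ : ∃ z, z = (1 - f) * a := ⟨_, rfl⟩
    obtain ⟨y, hy⟩ := hr z
    have fz : f * z = 0 := by rw [hz, ← mul_assoc, mul_sub, mul_one, ff, sub_self, zero_mul]
    have e1 : (1 - f) * z = z := by rw [sub_mul, one_mul, fz, sub_zero]
    have e2 : (1 - f) * f = 0 := by rw [sub_mul, one_mul, ff, sub_self]
    have z0 : φ z = 0 := by rw [hz, map_mul, hs a (Set.mem_insert _ _), mul_zero]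
    obtain ⟨h, hh⟩ : ∃ h, h = z * y * (1 - f) := ⟨_, rfl⟩
    have hz1 : h * z = z := by rw [hh, mul_assoc, e1, hy]
    have h2 : h * h = h := by
      calc h * h = h * z * (y * (1 - f)) := by
            conv_lhs => rw [hh]
            rw [hh]
            simp only [mul_assoc]
        _ = h := by rw [hz1, hh, mul_assoc]
    have fh : f * h = 0 := by rw [hh, ← mul_assoc, ← mul_assoc, fz, zero_mul, zero_mul]
    have hf : h * f = 0 := by rw [hh, mul_assoc, e2, mul_zero]
    refine ⟨f + h, ?_, ?_, ?_⟩
    · rw [map_add, f0, hh, map_mul, map_mul, z0, zero_mul, zero_mul, add_zero]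
    · rw [mul_add, add_mul, add_mul, ff, hf, fh, h2, add_zero, zero_add]
    · intro x hx
      rcases Set.mem_insert_iff.1 hx with rfl | hx
      · have : h * x = z := by
          rw [hh, mul_assoc, ← hz, hy]
        rw [add_mul, this, hz, sub_mul, one_mul]
        abel
      · have : h * x = 0 := by
          rw [hh, mul_assoc, sub_mul, one_mul, fx x hx, sub_self, mul_zero]
        rw [add_mul, fx x hx, this, add_zero]

theorem right_unit (hr : ∀ a : S, ∃ x, a * x * a = a) {E : Set S} (hE : E.Finite) :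
    (∀ x ∈ E, φ x = 0) → ∃ f : S, φ f = 0 ∧ f * f = f ∧ ∀ x ∈ E, x * f = x := by
  induction E, hE using Set.Finite.induction_on with
  | empty => exact fun _ => ⟨0, map_zero φ, by simp, by simp⟩
  | @insert a s _ _ ih =>
    intro hs
    obtain ⟨f, f0, ff, fx⟩ := ih fun x hx => hs x (Set.mem_insert_of_mem _ hx)
    obtain ⟨z, hz⟩ : ∃ z, z = a * (1 - f) := ⟨_, rfl⟩
    obtain ⟨y, hy⟩ := hr z
    have fz : z * f = 0 := by rw [hz, mul_assoc, sub_mul, one_mul, ff, sub_self, mul_zero]
    have e1 : z * (1 - f) = z := by rw [mul_sub, mul_one, fz, sub_zero]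
    have e2 : f * (1 - f) = 0 := by rw [mul_sub, mul_one, ff, sub_self]
    have z0 : φ z = 0 := by rw [hz, map_mul, hs a (Set.mem_insert _ _), zero_mul]
    obtain ⟨h, hh⟩ : ∃ h, h = (1 - f) * (y * z) := ⟨_, rfl⟩
    have hz1 : z * h = z := by rw [hh, ← mul_assoc, e1, ← mul_assoc, hy]
    have h2 : h * h = h := by
      calc h * h = (1 - f) * y * (z * h) := by
            conv_lhs => rw [hh]
            rw [hh]
            simp only [mul_assoc]
        _ = h := by rw [hz1, hh, mul_assoc]
    have fh : h * f = 0 := by rw [hh, mul_assoc, mul_assoc, fz, mul_zero, mul_zero]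
    have hf : f * h = 0 := by rw [hh, ← mul_assoc, e2, zero_mul]
    refine ⟨f + h, ?_, ?_, ?_⟩
    · rw [map_add, f0, hh, map_mul, map_mul, z0, mul_zero, mul_zero, add_zero]
    · rw [mul_add, add_mul, add_mul, ff, hf, fh, h2, add_zero, zero_add]
    · intro x hx
      rcases Set.mem_insert_iff.1 hx with rfl | hx
      · have : x * h = z := by
          rw [hh, ← mul_assoc, ← hz, ← mul_assoc, hy]
        rw [mul_add, this, hz, mul_sub, mul_one]
        abel
      · have : x * h = 0 := by
          rw [hh, ← mul_assoc, mul_sub, mul_one, fx x hx, sub_self, zero_mul]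
        rw [mul_add, fx x hx, this, add_zero]

end Lu45

theorem t_lu : S_LU := by
  intro S S' _ _ φ hr E hE hEJ
  obtain ⟨f, f0, ff, fx⟩ := Lu45.left_unit φ hr hE fun x hx => hEJ hx
  obtain ⟨g, g0, gg, gx⟩ := Lu45.right_unit φ hr (hE.insert f) (by
    intro x hx
    rcases Set.mem_insert_iff.1 hx with rfl | hx
    · exact f0
    · exact hEJ hx)
  have fg : f * g = f := gx f (Set.mem_insert _ _)
  refine ⟨f + g - g * f, ?_, ?_, ?_⟩
  · show φ (f + g - g * f) = 0
    rw [map_sub, map_add, map_mul, f0, g0]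
    simp
  · have h1 : f * (f + g - g * f) = f := by
      rw [mul_sub, mul_add, ff, fg, ← mul_assoc, fg, ff, add_sub_cancel_right]
    have h2 : g * (f + g - g * f) = g := by
      rw [mul_sub, mul_add, gg, ← mul_assoc, gg]
      abel
    rw [sub_mul, add_mul, h1, h2, mul_assoc, h1]
  · intro x hx
    constructor
    · rw [sub_mul, add_mul, mul_assoc, fx x hx]
      abel
    · have e : x * g = x := gx x (Set.mem_insert_of_mem _ hx)
      rw [mul_sub, mul_add, e, ← mul_assoc, e]
      abel

end Pool.Agent.NH98.IL
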