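import Pool.Agent.NH98.IL.Stm

/-! Non-unital maps to matrix rings. -/

set_option autoImplicit false

namespace Pool.Agent.NH98.IL

namespace Nu

variable {A B : Type} [Ring A] [Ring B]

/-- the homomorphism of the unit groups given by a map which preserves sums and products -/
def up (F : A → B) (hadd : ∀ x y, F (x + y) = F x + F y) (hmul : ∀ x y, F (x * y) = F x * F y) :
    Aˣ →* Bˣ :=
  MonoidHom.toHomUnits
    { toFun := fun u => 1 + F ((u : A) - 1)
      map_one' := by
        have h0 : F 0 = 0 := by
          have h := hadd 0 0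
          rw [add_zero] at h
          exact left_eq_add.1 h
        rw [Units.val_one, sub_self, h0, add_zero]
      map_mul' := fun u v => by
        have h : ((u * v : Aˣ) : A) - 1 = ((u : A) - 1) * ((v : A) - 1) + ((u : A) - 1) +
            ((v : A) - 1) := by
          rw [Units.val_mul]
          noncomm_ring
        rw [h, hadd, hadd, hmul]
        noncomm_ring }

theorem up_inj (F : A → B) (hadd : ∀ x y, F (x + y) = F x + F y)
    (hmul : ∀ x y, F (x * y) = F x * F y) (hinj : Function.Injective F) :
    Function.Injective (up F hadd hmul) := by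
  intro u v h
  have h1 := congrArg Units.val h
  have h2 : (1 : B) + F ((u : A) - 1) = 1 + F ((v : A) - 1) := h1
  have h3 := hinj (add_left_cancel h2)
  exact Units.ext (sub_left_injective h3)

/-- the map of the matrices -/
theorem map_mul {n k : ℕ} {S T : Type} [Ring S] [Ring T] (f : S → Matrix (Fin k) (Fin k) T)
    (hadd : ∀ x y, f (x + y) = f x + f y) (hmul : ∀ x y, f (x * y) = f x * f y)
    (M N : Matrix (Fin n) (Fin n) S) : (M * N).map f = M.map f * N.map f := by
  have h0 : f 0 = 0 := by
    have h := hadd 0 0
    rw [add_zero] at h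
    exact left_eq_add.1 h
  let g : S →+ Matrix (Fin k) (Fin k) T :=
    { toFun := f, map_zero' := h0, map_add' := hadd }
  refine Matrix.ext fun i j => ?_
  rw [Matrix.map_apply, Matrix.mul_apply, Matrix.mul_apply]
  have h1 : f (∑ l, M i l * N l j) = ∑ l, f (M i l * N l j) := map_sum g _ _
  rw [h1]
  apply Finset.sum_congr rfl
  intro l _
  rw [hmul, Matrix.map_apply, Matrix.map_apply]

/-- the embedding of the general linear groups -/
theorem embed {S T : Type} [Ring S] [Ring T] (n k : ℕ) (f : S → Matrix (Fin k) (Fin k) T)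
    (hadd : ∀ x y, f (x + y) = f x + f y) (hmul : ∀ x y, f (x * y) = f x * f y)
    (hinj : Function.Injective f) : ∃ F : GLr n S →* GLr (n * k) T, Function.Injective F := by
  let e : Matrix (Fin n) (Fin n) (Matrix (Fin k) (Fin k) T) ≃+*
      Matrix (Fin (n * k)) (Fin (n * k)) T :=
    (Matrix.compRingEquiv (Fin n) (Fin k) T).trans (Matrix.reindexRingEquiv T finProdFinEquiv)
  let E : (Matrix (Fin n) (Fin n) (Matrix (Fin k) (Fin k) T))ˣ ≃* GLr (n * k) T :=
    Units.mapEquiv e.toMulEquiv
  refine ⟨E.toMonoidHom.comp (up (fun M : Matrix (Fin n) (Fin n) S => M.map f)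
    (fun M N => ?_) (fun M N => map_mul f hadd hmul M N)), ?_⟩
  · exact Matrix.ext fun i j => hadd _ _
  · rw [MonoidHom.coe_comp]
    refine E.injective.comp (up_inj _ _ _ ?_)
    intro M N h
    refine Matrix.ext fun i j => ?_
    exact hinj (congrFun (congrFun h i) j)

end Nu

theorem t_nu : S_NU := by
  intro C hC S T _ _ k f hadd hmul hinj hT n
  obtain ⟨F, hF⟩ := Nu.embed n k f hadd hmul hinj
  exact hC.base.of_injective _ _ F hF (hT (n * k))

end Pool.Agent.NH98.IL
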