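import Pool.Agent.NH98.IL.Stm

/-!
# Project IL, job IL-7: general linear groups of von Neumann regular rings
-/

set_option autoImplicit false

namespace Pool.Agent.NH98.IL

open Pool.Agent.Y110.FJ

namespace Reg

variable {C : ∀ (G : Type) [Group G], Prop}

theorem inr_subsingleton (hC : ClosedE C) (R : Type) [Ring R] [Subsingleton R] : InR C R := by
  intro n
  have : Subsingleton (GLr n R) := ⟨fun a b => Units.ext (Subsingleton.elim _ _)⟩
  exact hC.base.of_injective _ (Multiplicative ℤ) 1 (fun a b _ => Subsingleton.elim a b) hC.base.int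

theorem nu1 (hnu : S_NU) (hC : ClosedE C) (S T : Type) [Ring S] [Ring T] (g : S → T)
    (hadd : ∀ x y, g (x + y) = g x + g y) (hmul : ∀ x y, g (x * y) = g x * g y)
    (hinj : Function.Injective g) (hT : InR C T) : InR C S := by
  refine hnu C hC S T 1 (fun x => Matrix.of fun _ _ => g x) ?_ ?_ ?_ hT
  · intro x y
    ext i j
    exact hadd x y
  · intro x y
    ext i j
    simp [Matrix.mul_apply, hmul]
  · intro x y h
    exact hinj (congrFun (congrFun h 0) 0)

theorem mem_c {R : Type} [Ring R] {e : R} (he : IsIdempotentElem e) {x : R} (h1 : e * x = x)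
    (h2 : x * e = x) : x ∈ Subsemigroup.corner e := (Subsemigroup.mem_corner_iff he).2 ⟨h1, h2⟩

theorem left_c {R : Type} [Ring R] {e : R} (he : IsIdempotentElem e) (x : he.Corner) :
    e * x.1 = x.1 := ((Subsemigroup.mem_corner_iff he).1 x.2).1

theorem right_c {R : Type} [Ring R] {e : R} (he : IsIdempotentElem e) (x : he.Corner) :
    x.1 * e = x.1 := ((Subsemigroup.mem_corner_iff he).1 x.2).2

/-- the elements whose image is in the ideal generated by `q` -/
def L {S S' : Type} [Ring S] [Ring S'] (φ : S →+* S') (q : S') : Ideal S where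
  carrier := {x | ∃ (k : ℕ) (a b : Fin k → S'), φ x = ∑ i, a i * q * b i}
  zero_mem' := ⟨0, Fin.elim0, Fin.elim0, by simp⟩
  add_mem' := by
    rintro x y ⟨k, a, b, h⟩ ⟨l, c, d, h'⟩
    refine ⟨k + l, Fin.append a c, Fin.append b d, ?_⟩
    rw [map_add, h, h', Fin.sum_univ_add]
    simp
  smul_mem' := by
    rintro c x ⟨k, a, b, h⟩
    refine ⟨k, fun i => φ c * a i, b, ?_⟩
    rw [smul_eq_mul, map_mul, h, Finset.mul_sum]
    simp only [mul_assoc]

theorem mem_L {S S' : Type} [Ring S] [Ring S'] (φ : S →+* S') (q : S') (x : S) :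
    x ∈ L φ q ↔ ∃ (k : ℕ) (a b : Fin k → S'), φ x = ∑ i, a i * q * b i := Iff.rfl

theorem L_two {S S' : Type} [Ring S] [Ring S'] (φ : S →+* S') (q : S') : (L φ q).IsTwoSided := by
  constructor
  intro x y hx
  rw [mem_L] at hx ⊢
  obtain ⟨k, a, b, h⟩ := hx
  refine ⟨k, a, fun i => b i * φ y, ?_⟩
  rw [map_mul, h, Finset.sum_mul]
  simp only [mul_assoc]

/-- the corners of the idempotents of `J` are in `InR C` -/
def Phi (C : ∀ (G : Type) [Group G], Prop) (S : Type) [Ring S] : Set (Ideal S) :=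
  {J | J.IsTwoSided ∧ ∀ (e : S) (he : IsIdempotentElem e), e ∈ J → InR C he.Corner}

theorem bot_mem (hC : ClosedE C) (S : Type) [Ring S] : (⊥ : Ideal S) ∈ Phi C S := by
  refine ⟨⟨fun {a} b ha => ?_⟩, fun e he hm => ?_⟩
  · rw [Ideal.mem_bot] at ha ⊢
    rw [ha, zero_mul]
  · have h0 : e = 0 := (Ideal.mem_bot).1 hm
    have hz : ∀ a : he.Corner, a.1 = 0 := fun a => (left_c he a).symm.trans
      ((congrArg (· * a.1) h0).trans (zero_mul a.1))
    have : Subsingleton he.Corner := ⟨fun a b => Subtype.ext ((hz a).trans (hz b).symm)⟩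
    exact inr_subsingleton hC _

theorem chain_mem (S : Type) [Ring S] (c : Set (Ideal S)) (hc : c ⊆ Phi C S)
    (hch : IsChain (· ≤ ·) c) (hne : c.Nonempty) : sSup c ∈ Phi C S := by
  have hdir : DirectedOn (· ≤ ·) c := hch.directedOn
  refine ⟨⟨fun {a} b ha => ?_⟩, fun e he hm => ?_⟩
  · rw [Submodule.mem_sSup_of_directed hne hdir] at ha ⊢
    obtain ⟨J, hJ, haJ⟩ := ha
    have := (hc hJ).1
    exact ⟨J, hJ, Ideal.mul_mem_right b J haJ⟩
  · rw [Submodule.mem_sSup_of_directed hne hdir] at hm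
    obtain ⟨J, hJ, heJ⟩ := hm
    exact (hc hJ).2 e he heJ

/-- the map between the corners -/
def psi {S S' : Type} [Ring S] [Ring S'] (φ : S →+* S') {f : S} (hf : IsIdempotentElem f)
    (hf' : IsIdempotentElem (φ f)) : hf.Corner →+* hf'.Corner where
  toFun t := ⟨φ t.1, mem_c hf' (by rw [← map_mul, left_c hf t]) (by rw [← map_mul, right_c hf t])⟩
  map_one' := rfl
  map_zero' := Subtype.ext (map_zero φ)
  map_add' x y := Subtype.ext (map_add φ x.1 y.1)
  map_mul' x y := Subtype.ext (map_mul φ x.1 y.1)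

theorem step (hnu : S_NU) (hb : S_B) (hti : S_TI) (hlu : S_LU) (hC : ClosedE C) {S S' : Type}
    [Ring S] [Ring S'] (hreg : ∀ a : S, ∃ x, a * x * a = a) (φ : S →+* S')
    (hk : ∀ (e : S) (he : IsIdempotentElem e), φ e = 0 → InR C he.Corner)
    (q : S') (hq : IsIdempotentElem q) (hqC : InR C hq.Corner) : L φ q ∈ Phi C S := by
  refine ⟨L_two φ q, fun f hf hm => ?_⟩
  have hf' : IsIdempotentElem (φ f) := by
    show φ f * φ f = φ f
    rw [← map_mul, hf.eq]
  have hregT : ∀ a : hf.Corner, ∃ x, a * x * a = a := by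
    intro a
    obtain ⟨x, hx⟩ := hreg a.1
    refine ⟨⟨f * x * f, mem_c hf ?_ ?_⟩, Subtype.ext ?_⟩
    · rw [← mul_assoc, ← mul_assoc, hf.eq]
    · rw [mul_assoc, hf.eq]
    · show a.1 * (f * x * f) * a.1 = a.1
      have h1 : a.1 * (f * x * f) * a.1 = (a.1 * f) * x * (f * a.1) := by simp only [mul_assoc]
      rw [h1, left_c hf a, right_c hf a, hx]
  refine hb C hC hf.Corner hf'.Corner (psi φ hf hf') (hlu _ _ _ hregT) ?_ ?_
  · intro t ht h0
    have ht' : IsIdempotentElem t.1 := congrArg Subtype.val ht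
    have h0' : φ t.1 = 0 := congrArg Subtype.val h0
    have hmem : ∀ x : ht.Corner, (x.1).1 ∈ Subsemigroup.corner t.1 := fun x =>
      mem_c ht' (congrArg Subtype.val (left_c ht x)) (congrArg Subtype.val (right_c ht x))
    refine nu1 hnu hC ht.Corner ht'.Corner (fun x => ⟨(x.1).1, hmem x⟩) (fun x y => rfl)
      (fun x y => rfl) (fun x y hxy => ?_) (hk t.1 ht' h0')
    have h1 : (x.1).1 = (y.1).1 := congrArg (fun z : ht'.Corner => z.1) hxy
    exact Subtype.ext (Subtype.ext h1)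
  · exact hti C hC S' q (φ f) hq hf' hm hqC

end Reg

open Reg in
/-- von Neumann regular rings whose nonzero quotients have a nonzero idempotent with a corner in
`InR C` are in `InR C` -/
theorem t_reg (hnu : S_NU) (hb : S_B) (hti : S_TI) (hlu : S_LU) : S_REG := by
  intro C hC S _ hreg hq
  obtain ⟨M, -, hM⟩ := zorn_le_nonempty₀ (Phi C S)
    (fun c hc hch y hy => ⟨sSup c, chain_mem S c hc hch ⟨y, hy⟩, fun z hz => le_sSup hz⟩) ⊥
    (bot_mem hC S)
  have hMt : M.IsTwoSided := hM.1.1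
  by_cases htop : M = ⊤
  · have h1 : IsIdempotentElem (1 : S) := IsIdempotentElem.one
    have hc1 : InR C h1.Corner := hM.1.2 1 h1 (by rw [htop]; trivial)
    refine nu1 hnu hC S h1.Corner (fun x => ⟨x, mem_c h1 (one_mul x) (mul_one x)⟩)
      (fun x y => rfl) (fun x y => rfl) (fun x y hxy => congrArg Subtype.val hxy) hc1
  · exfalso
    have hnt : Nontrivial (S ⧸ M) := Ideal.Quotient.nontrivial_iff.2 htop
    obtain ⟨q, hqi, hq0, hqC⟩ := hq (S ⧸ M) (Ideal.Quotient.mk M) Ideal.Quotient.mk_surjective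
    have hL : L (Ideal.Quotient.mk M) q ∈ Phi C S :=
      step hnu hb hti hlu hC hreg (Ideal.Quotient.mk M)
        (fun e he h0 => hM.1.2 e he (Ideal.Quotient.eq_zero_iff_mem.1 h0)) q hqi hqC
    have hle : M ≤ L (Ideal.Quotient.mk M) q := by
      intro x hx
      refine ⟨0, Fin.elim0, Fin.elim0, ?_⟩
      rw [Ideal.Quotient.eq_zero_iff_mem.2 hx]
      simp
    have hle' := hM.2 hL hle
    obtain ⟨p, hp⟩ := Ideal.Quotient.mk_surjective q
    have hpL : p ∈ L (Ideal.Quotient.mk M) q :=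
      ⟨1, fun _ => q, fun _ => 1, by rw [hp]; simp [hqi.eq]⟩
    exact hq0 (by rw [← hp]; exact Ideal.Quotient.eq_zero_iff_mem.2 (hle' hpL))

end Pool.Agent.NH98.IL

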