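import Pool.Agent.R630.FJ.Inn

/-!
# Project IL (MP_63c928_gt): general linear groups of rings with ideals with local units. Definitions and
statements (owner helper98).
-/

set_option autoImplicit false

namespace Pool.Agent.NH98.IL

open Pool.Agent.Y110.FJ

/-- the general linear group of a ring, not necessarily commutative -/
abbrev GLr (n : ℕ) (S : Type) [Ring S] : Type := (Matrix (Fin n) (Fin n) S)ˣ

/-- all general linear groups of `S` are in `C` -/
def InR (C : ∀ (G : Type) [Group G], Prop) (S : Type) [Ring S] : Prop := ∀ n : ℕ, C (GLr n S)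

/-- the set `I` has local units: each finite subset of `I` is contained in `e S e` for an idempotent
`e` in `I` -/
def LocUnits {S : Type} [Ring S] (I : Set S) : Prop :=
  ∀ E : Set S, E.Finite → E ⊆ I → ∃ e ∈ I, e * e = e ∧ ∀ x ∈ E, e * x = x ∧ x * e = x

/-- the entries of `u - 1` are in `e S e` -/
def cg {S : Type} [Ring S] {n : ℕ} (e : S) (u : GLr n S) : Prop :=
  ∀ i j, e * ((u : Matrix (Fin n) (Fin n) S) - 1) i j = ((u : Matrix (Fin n) (Fin n) S) - 1) i j ∧
    ((u : Matrix (Fin n) (Fin n) S) - 1) i j * e = ((u : Matrix (Fin n) (Fin n) S) - 1) i j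

/-- injective maps to matrix rings which preserve sums and products, but not necessarily the unit -/
def S_NU : Prop := ∀ C : ∀ (G : Type) [Group G], Prop, ClosedE C →
  ∀ (S T : Type) [Ring S] [Ring T] (k : ℕ) (f : S → Matrix (Fin k) (Fin k) T),
    (∀ x y, f (x + y) = f x + f y) → (∀ x y, f (x * y) = f x * f y) → Function.Injective f →
    InR C T → InR C S

/-- conjugation by `g` on a corner is inner in `GL_{2n}` of a larger corner -/
def S_KEY : Prop := ∀ (S : Type) [Ring S] (n : ℕ) (e' : S) (he' : IsIdempotentElem e'),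
  ∃ (H : Subgroup (GLr n S)) (Ψ : H →* GLr (n + n) he'.Corner), (∀ u, u ∈ H ↔ cg e' u) ∧
    Function.Injective Ψ ∧
    ∀ (g : GLr n S) (e : S), e * e = e → e' * e = e → e * e' = e →
      (∀ i j, e' * ((g : Matrix (Fin n) (Fin n) S) i j * e) = (g : Matrix (Fin n) (Fin n) S) i j * e) →
      (∀ i j, (e * ((g⁻¹ : GLr n S) : Matrix (Fin n) (Fin n) S) i j) * e' =
        e * ((g⁻¹ : GLr n S) : Matrix (Fin n) (Fin n) S) i j) →
      ∃ p : GLr (n + n) he'.Corner, ∀ x y : H, cg e (x : GLr n S) → (y : GLr n S) = g * x * g⁻¹ →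
        Ψ y = p * Ψ x * p⁻¹

/-- groups with a normal subgroup represented by matrices which are congruent to `1` modulo an ideal
with local units -/
def S_A : Prop := ∀ C : ∀ (G : Type) [Group G], Prop, ClosedE C →
  ∀ (S : Type) [Ring S] (I : Ideal S) [I.IsTwoSided], LocUnits (I : Set S) →
    (∀ (e : S) (he : IsIdempotentElem e), e ∈ I → InR C he.Corner) →
    ∀ (G : Type) [Group G] (n : ℕ) (ρ : G →* GLr n S) (N : Subgroup G) [N.Normal],
      (∀ x ∈ N, ρ x = 1 → x = 1) →
      (∀ x ∈ N, ∀ i j, ((ρ x : Matrix (Fin n) (Fin n) S) - 1) i j ∈ I) → C (G ⧸ N) → C G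

/-- ring homomorphisms whose kernel has local units -/
def S_B : Prop := ∀ C : ∀ (G : Type) [Group G], Prop, ClosedE C →
  ∀ (S S' : Type) [Ring S] [Ring S'] (φ : S →+* S'), LocUnits {x | φ x = 0} →
    (∀ (e : S) (he : IsIdempotentElem e), φ e = 0 → InR C he.Corner) → InR C S' → InR C S

/-- idempotents of the ideal generated by an idempotent -/
def S_TI : Prop := ∀ C : ∀ (G : Type) [Group G], Prop, ClosedE C →
  ∀ (S : Type) [Ring S] (e f : S) (he : IsIdempotentElem e) (hf : IsIdempotentElem f),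
    (∃ (k : ℕ) (a b : Fin k → S), f = ∑ i, a i * e * b i) → InR C he.Corner → InR C hf.Corner

/-- a ring `S` with an idempotent `e` such that `S e S` has local units -/
def S_D : Prop := ∀ C : ∀ (G : Type) [Group G], Prop, ClosedE C →
  ∀ (S S' : Type) [Ring S] [Ring S'] (φ : S →+* S') (e : S) (he : IsIdempotentElem e),
    (∀ x, φ x = 0 ↔ ∃ (k : ℕ) (a b : Fin k → S), x = ∑ i, a i * e * b i) →
    LocUnits {x | φ x = 0} → InR C he.Corner → InR C S' → InR C S

/-- ideals of von Neumann regular rings have local units -/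
def S_LU : Prop := ∀ (S S' : Type) [Ring S] [Ring S'] (φ : S →+* S'), (∀ a : S, ∃ x, a * x * a = a) →
  LocUnits {x | φ x = 0}

/-- von Neumann regular rings -/
def S_REG : Prop := ∀ C : ∀ (G : Type) [Group G], Prop, ClosedE C →
  ∀ (S : Type) [Ring S], (∀ a : S, ∃ x, a * x * a = a) →
    (∀ (S' : Type) [Ring S'] [Nontrivial S'] (φ : S →+* S'), Function.Surjective φ →
      ∃ (e : S') (he : IsIdempotentElem e), e ≠ 0 ∧ InR C he.Corner) → InR C S

end Pool.Agent.NH98.IL
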