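import Pool.Agent.NH98.IL.Stm

/-!
# IL-5: idempotents of the ideal generated by an idempotent
-/

set_option autoImplicit false

namespace Pool.Agent.NH98.IL

open Pool.Agent.Y110.FJ

namespace Ti45

theorem coe_mul' {S : Type} [Ring S] {e : S} (he : IsIdempotentElem e) (x y : he.Corner) :
    (x * y).1 = x.1 * y.1 := rfl

theorem coe_sum' {S : Type} [Ring S] {e : S} (he : IsIdempotentElem e) {k : ℕ}
    (x : Fin k → he.Corner) : (∑ i, x i).1 = ∑ i, (x i).1 := by
  let c : he.Corner →+ S := { toFun := fun x => x.1, map_zero' := rfl, map_add' := fun _ _ => rfl }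
  exact map_sum c x Finset.univ

end Ti45

open Ti45

theorem t_ti (h : S_NU) : S_TI := by
  intro C hC S _ e f he hf ⟨k, a, b, hab⟩ hI
  have ee : e * e = e := he
  let F : hf.Corner → Matrix (Fin k) (Fin k) he.Corner := fun s => Matrix.of fun i j =>
    ⟨e * b i * s.1 * a j * e, (Subsemigroup.mem_corner_iff he).2 ⟨by
      simp only [← mul_assoc, ee], by simp only [mul_assoc, ee]⟩⟩
  have hF : ∀ s i j, (F s i j).1 = e * b i * s.1 * a j * e := fun _ _ _ => rfl
  refine h C hC hf.Corner he.Corner k F ?_ ?_ ?_ hI
  · intro x y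
    apply Matrix.ext
    intro i j
    apply Subtype.ext
    show e * b i * (x.1 + y.1) * a j * e = e * b i * x.1 * a j * e + e * b i * y.1 * a j * e
    rw [mul_add, add_mul, add_mul]
  · intro x y
    apply Matrix.ext
    intro i j
    apply Subtype.ext
    have hx : x.1 * f = x.1 := ((Subsemigroup.mem_corner_iff hf).1 x.2).2
    rw [Matrix.mul_apply, coe_sum']
    have e1 : ∀ l, (F x i l * F y l j).1 =
        e * b i * x.1 * (a l * e * b l) * (y.1 * a j * e) := by
      intro l
      rw [coe_mul', hF, hF]
      calc e * b i * x.1 * a l * e * (e * b l * y.1 * a j * e)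
          = e * b i * x.1 * a l * (e * e) * b l * y.1 * a j * e := by simp only [mul_assoc]
        _ = _ := by rw [ee]; simp only [mul_assoc]
    simp only [e1]
    rw [← Finset.sum_mul, ← Finset.mul_sum, ← hab, mul_assoc (e * b i), hx]
    show e * b i * (x.1 * y.1) * a j * e = _
    simp only [mul_assoc]
  · intro x y hxy
    apply Subtype.ext
    have key : ∀ s : hf.Corner, ∑ i, ∑ j, a i * (F s i j).1 * b j = s.1 := by
      intro s
      have s1 : f * s.1 = s.1 := ((Subsemigroup.mem_corner_iff hf).1 s.2).1
      have s2 : s.1 * f = s.1 := ((Subsemigroup.mem_corner_iff hf).1 s.2).2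
      have e1 : ∀ i j, a i * (F s i j).1 * b j =
          (a i * e * b i) * s.1 * (a j * e * b j) := by
        intro i j
        rw [hF]
        simp only [mul_assoc]
      simp only [e1]
      simp only [← Finset.mul_sum]
      rw [← hab, ← Finset.sum_mul, ← Finset.sum_mul, ← hab, s1, s2]
    rw [← key x, ← key y, hxy]

end Pool.Agent.NH98.IL
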